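import Pool.Agent.K1H2.UB.Stm2

/-!
# Disjoint cubes (project UB of helper2, piece CSUM)
-/

set_option autoImplicit false

open scoped ENNReal
open Finset MeasureTheory Pool.Agent.K1H53.BI Pool.Agent.H283R3.Newt

namespace Pool.Agent.K1H92.UB

open Pool.Agent.K1H2.UB

theorem isOpen_cube (y : V) : IsOpen (cube y) := by
  have h : cube y = ⋂ i : Fin 3, {p : E3 | |p i - y i| < 1 / 2} := by
    ext p
    simp [cube]
  rw [h]
  exact isOpen_iInter_of_finite fun i => isOpen_lt (by fun_prop) continuous_const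

theorem disj_cube {y y' : V} (h : y ≠ y') : Disjoint (cube y) (cube y') := by
  rw [Set.disjoint_left]
  intro p hp hp'
  apply h
  funext i
  have h1 := abs_lt.1 (hp i)
  have h2 := abs_lt.1 (hp' i)
  have h3 : (y i : ℝ) < y' i + 1 := by linarith [h1.1, h1.2, h2.1, h2.2]
  have h4 : (y' i : ℝ) < y i + 1 := by linarith [h1.1, h1.2, h2.1, h2.2]
  have h5 : y i < y' i + 1 := by exact_mod_cast h3
  have h6 : y' i < y i + 1 := by exact_mod_cast h4
  omega

theorem t_CSUM : S_CSUM := by
  intro hG hN N z hR D hD _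
  obtain ⟨h1, h2, h3, h4⟩ := hN N z hR
  obtain ⟨-, -, -, -, -, hg, -⟩ := hG N z hR
  have hdl := hR.big
  set B : Set E3 := Metric.ball (0 : E3) (rho N z) with hB
  set F : E3 → ℝ := fun x => max (gv N z x) 0 with hF
  have hzs : ∀ y ∈ D, pt (zs N z) ∉ cube y := by
    intro y hy hmem
    have hy' := hD hy
    rw [ballF, Finset.mem_filter] at hy'
    have h5 : len (rv y) ≤ N + 1 := by
      have h6 : q (rv y) ≤ (N : ℝ) ^ 2 := by
        have h7 : (nsq y : ℝ) ≤ (N : ℝ) ^ 2 := by exact_mod_cast hy'.2
        have h8 : (nsq y : ℝ) = q (rv y) := by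
          rw [nsq, q, Nat.cast_sum]
          refine Finset.sum_congr rfl fun i _ => ?_
          rw [Nat.cast_pow, Nat.cast_natAbs, rv, Int.cast_abs, sq_abs]
        rw [← h8]
        exact h7
      rw [len]
      have h7 : Real.sqrt (q (rv y)) ≤ N := by
        rw [Real.sqrt_le_left (Nat.cast_nonneg N)]
        exact h6
      linarith
    have h6 := (hg (rv y) h5).1
    have h7 : q (rv y - zs N z) ≤ 3 / 4 := by
      rw [q]
      calc ∑ i, (rv y - zs N z) i ^ 2 ≤ ∑ i : Fin 3, (1 / 4 : ℝ) := by
            refine Finset.sum_le_sum fun i _ => ?_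
            have h8 := abs_lt.1 (hmem i)
            have h9 : (pt (zs N z)) i = zs N z i := rfl
            rw [h9] at h8
            have h10 : (rv y - zs N z) i = (y i : ℝ) - zs N z i := rfl
            rw [h10]
            nlinarith [h8.1, h8.2]
        _ = 3 / 4 := by norm_num
    have h8 : len (rv y - zs N z) ≤ 1 := by
      rw [len, Real.sqrt_le_left (by norm_num)]
      linarith
    linarith
  have hF0 : ∀ y ∈ D, ∀ x ∈ cube y, x ∉ B → F x = 0 := by
    intro y hy x hx hxB
    have hne : x ≠ pt (zs N z) := by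
      rintro rfl
      exact hzs y hy hx
    exact max_eq_right (h2 x hne hxB)
  have hFB : IntegrableOn F B := Integrable.pos_part h3
  have hFc : ∀ y ∈ D, IntegrableOn F (cube y) := by
    intro y hy
    rw [← Set.inter_union_sdiff (cube y) B]
    refine IntegrableOn.union (hFB.mono_set Set.inter_subset_right) ?_
    refine IntegrableOn.congr_fun (f := fun _ => (0 : ℝ)) integrableOn_zero ?_
      ((isOpen_cube y).measurableSet.diff measurableSet_ball)
    intro x hx
    exact (hF0 y hy x hx.1 hx.2).symm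
  have hsum : ∑ y ∈ D, ∫ x in cube y, F x = ∫ x in ⋃ y ∈ D, cube y, F x :=
    (integral_biUnion_finset D (fun y _ => (isOpen_cube y).measurableSet)
      (fun y _ y' _ h => disj_cube h) hFc).symm
  rw [hsum]
  have hU : MeasurableSet (⋃ y ∈ D, cube y) :=
    Finset.measurableSet_biUnion D fun y _ => (isOpen_cube y).measurableSet
  have hcut : ∫ x in ⋃ y ∈ D, cube y, F x = ∫ x in (⋃ y ∈ D, cube y) ∩ B, F x := by
    apply setIntegral_eq_of_subset_of_forall_sdiff_eq_zero hU Set.inter_subset_left
    rintro x ⟨hx, hx'⟩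
    have hxB : x ∉ B := fun h => hx' ⟨hx, h⟩
    simp only [Set.mem_iUnion] at hx
    obtain ⟨y, hy, hxy⟩ := hx
    exact hF0 y hy x hxy hxB
  have hle : ∫ x in (⋃ y ∈ D, cube y) ∩ B, F x ≤ ∫ x in B, F x :=
    setIntegral_mono_set hFB (Filter.Eventually.of_forall fun x => le_max_right _ _)
      (Filter.Eventually.of_forall fun x hx => hx.2)
  have heq : ∫ x in B, F x = ∫ x in B, gv N z x := by
    apply setIntegral_congr_ae measurableSet_ball
    have hne : ∀ᵐ x : E3, x ≠ pt (rv z) := by
      rw [ae_iff]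
      simp
    filter_upwards [hne] with x hx hxB
    exact max_eq_left (h1 x hx hxB)
  rw [hcut]
  exact hle.trans (by rw [heq, h4])

end Pool.Agent.K1H92.UB
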